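import Pool.Agent.H612.AR
import Pool.Agent.H78R3.TSV.Defs

/-!
# Bounding the spectral norm of a tensor: the decision problems
-/

set_option autoImplicit false

namespace Pool.Agent.V8H41.SN

open Pool.Agent.H78R3.TSV (IsCube entry)

/-- The value `T(x, y, z) = ∑ t i j k x_i y_j z_k` of the trilinear form of a real tensor. -/
noncomputable def form {d : ℕ} (t : Fin d → Fin d → Fin d → ℝ) (x y z : EuclideanSpace ℝ (Fin d)) :
    ℝ :=
  ∑ i, ∑ j, ∑ k, t i j k * x i * y j * z k

/-- The spectral norm of a real `d × d × d` tensor: the supremum (for `d ≥ 1` a maximum) of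
`|T(x, y, z)|` over all unit vectors `x`, `y`, `z`. -/
noncomputable def spectralNorm {d : ℕ} (t : Fin d → Fin d → Fin d → ℝ) : ℝ :=
  sSup {r : ℝ | ∃ x y z : EuclideanSpace ℝ (Fin d), ‖x‖ = 1 ∧ ‖y‖ = 1 ∧ ‖z‖ = 1 ∧
    r = |form t x y z|}

/-- The real tensor given by a nested list of rational numbers. -/
noncomputable def tensorOf (l : List (List (List ℚ))) :
    Fin l.length → Fin l.length → Fin l.length → ℝ :=
  fun i j k => ((entry l i j k : ℚ) : ℝ)

/-- An instance is a nonempty `d × d × d` array of rational numbers (a nested list; `d ≥ 1` is its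
length) together with a positive rational number `σ`. -/
def IsInstance (q : List (List (List ℚ)) × ℚ) : Prop := q.1 ≠ [] ∧ IsCube q.1 ∧ 0 < q.2

/-- SPECTRAL-NORM-BOUND: is the spectral norm of the tensor at most `σ`? -/
def SpectralNormBound (q : List (List (List ℚ)) × ℚ) : Prop :=
  IsInstance q ∧ spectralNorm (tensorOf q.1) ≤ (q.2 : ℝ)

/-- SPECTRAL-NORM-EXCEED: is the spectral norm of the tensor larger than `σ`? -/
def SpectralNormExceed (q : List (List (List ℚ)) × ℚ) : Prop :=
  IsInstance q ∧ (q.2 : ℝ) < spectralNorm (tensorOf q.1)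

end Pool.Agent.V8H41.SN
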