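import Pool.Agent.V8H41.SN.Norm

/-!
# The tensor of a quadratic system with one extra form
-/

set_option autoImplicit false

namespace Pool.Agent.V8H41.SN

open Finset Pool.Agent.H78R3.TSV

/-- The extra form `x₀ y_τ + x_τ y₀`. -/
def eform (τ : ℕ) : List QT := [((1 : ℤ), (0, τ))]

theorem fev_eform (x y : ℕ → ℝ) (τ : ℕ) : fev x y (eform τ) = x 0 * y τ + x τ * y 0 := by
  simp [eform, tev, bev]

/-- The forms of the tensor. -/
def eforms (n : ℕ) (G : List QC) (τ : ℕ) : List (List QT) := eform τ :: forms n G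

/-- The squares of the constraints are outweighed by the extra form at some point. -/
def HomLt (G : List QC) (τ : ℕ) : Prop :=
  ∃ x : ℕ → ℝ, (G.length : ℝ) * (G.map (fun g => gev x x g * gev x x g)).sum <
    fev x x (eform τ) * fev x x (eform τ)

theorem bev_comb (x y : ℕ → ℝ) (p : ℕ × ℕ) (s : ℝ) :
    bev (fun i => x i + s * y i) (fun i => x i + s * y i) p =
      bev x x p + 2 * s * bev x y p + s ^ 2 * bev y y p := by
  unfold bev
  ring

theorem fev_comb (x y : ℕ → ℝ) (f : List QT) (s : ℝ) :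
    fev (fun i => x i + s * y i) (fun i => x i + s * y i) f =
      fev x x f + 2 * s * fev x y f + s ^ 2 * fev y y f := by
  induction f with
  | nil => simp
  | cons t f ih =>
    simp only [fev_cons, ih, tev, bev_comb]
    ring

theorem fev_div (x : ℕ → ℝ) (f : List QT) (s : ℝ) :
    fev (fun i => x i / s) (fun i => x i / s) f = fev x x f / (s * s) := by
  induction f with
  | nil => simp
  | cons t f ih =>
    rw [fev_cons, fev_cons, ih, add_div]
    congr 1
    unfold tev bev
    rw [div_mul_div_comm, div_mul_div_comm, ← add_div, mul_div_assoc]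

theorem fok_eforms {n : ℕ} {G : List QC} (hG : ∀ g ∈ G, GOk n g) {τ : ℕ} (hτ : τ < n) :
    ∀ f ∈ eforms n G τ, FOk n f := by
  intro f hf
  rcases List.mem_cons.1 hf with rfl | hf
  · intro t ht
    simp only [eform, List.mem_cons, List.not_mem_nil, or_false] at ht
    subst ht
    exact ⟨Nat.lt_of_le_of_lt (Nat.zero_le _) hτ, hτ⟩
  · exact fok_forms hG f hf

theorem bev_congr {n : ℕ} {x y x' y' : ℕ → ℝ} (hx : ∀ i < n, x' i = x i) (hy : ∀ i < n, y' i = y i)
    {p : ℕ × ℕ} (h1 : p.1 < n) (h2 : p.2 < n) : bev x' y' p = bev x y p := by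
  unfold bev
  rw [hx _ h1, hx _ h2, hy _ h1, hy _ h2]

theorem fev_congr {n : ℕ} {x y x' y' : ℕ → ℝ} (hx : ∀ i < n, x' i = x i) (hy : ∀ i < n, y' i = y i)
    {f : List QT} (hf : FOk n f) : fev x' y' f = fev x y f := by
  induction f with
  | nil => simp
  | cons t f ih =>
    have h1 := hf t List.mem_cons_self
    rw [fev_cons, fev_cons, ih (fun t ht => hf t (List.mem_cons_of_mem _ ht)), tev, tev,
      bev_congr hx hy h1.1 h1.2]

/-- The sum of the squares of the values of the forms. -/
theorem S_eforms (n : ℕ) (G : List QC) (hG : ∀ g ∈ G, GOk n g) (τ : ℕ) (x : ℕ → ℝ) :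
    S x x x x (eforms n G τ) = (48 * (G.length : ℝ)) ^ 2 * (∑ i ∈ range n, x i ^ 2) ^ 2 -
      (G.length : ℝ) * (G.map (fun g => gev x x g * gev x x g)).sum +
      fev x x (eform τ) * fev x x (eform τ) := by
  unfold eforms
  rw [S_cons, S_forms x x x x n G hG, sum_bev]
  have ea : ∑ i ∈ range n, x i * x i = ∑ i ∈ range n, x i ^ 2 := by simp only [sq]
  rw [ea]
  ring

/-- Cauchy-Schwarz for lists of forms. -/
theorem sum_fev_sq_le {d : ℕ} (L : List (List QT)) (hL : L.length ≤ d) (z x : ℕ → ℝ)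
    (hz : ∑ k ∈ range d, z k ^ 2 = 1) :
    (∑ k ∈ range d, z k * fev x x (L.getD k [])) ^ 2 ≤ S x x x x L := by
  have h1 := Finset.sum_mul_sq_le_sq_mul_sq (range d) z (fun k => fev x x (L.getD k []))
  rw [hz, one_mul] at h1
  refine h1.trans (le_of_eq ?_)
  unfold S
  rw [← sum_getD L hL (fun f => fev x x f * fev x x f) (by simp)]
  exact Finset.sum_congr rfl fun k _ => sq _

/-- The triple sum. -/
theorem triple_sum {d : ℕ} (L : List (List QT)) (hF : ∀ k, FOk d (L.getD k [])) (x y z : ℕ → ℝ) :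
    ∑ i ∈ range d, ∑ j ∈ range d, ∑ k ∈ range d, (ten L i j k : ℝ) * x i * y j * z k =
      ∑ k ∈ range d, z k * fev x y (L.getD k []) := by
  have h1 : ∀ k, z k * fev x y (L.getD k []) =
      ∑ i ∈ range d, ∑ j ∈ range d, (ten L i j k : ℝ) * x i * y j * z k := by
    intro k
    rw [← sum_cf d _ (hF k), Finset.mul_sum]
    refine Finset.sum_congr rfl fun i _ => ?_
    rw [Finset.mul_sum]
    refine Finset.sum_congr rfl fun j _ => ?_
    simp only [ten]
    ring
  simp_rw [h1]
  rw [Finset.sum_comm]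
  rw [Finset.sum_congr rfl (fun j _ => Finset.sum_congr rfl fun i _ => rfl)]
  have h2 : ∀ f : ℕ → ℕ → ℕ → ℝ, ∑ j ∈ range d, ∑ i ∈ range d, ∑ k ∈ range d, f i j k =
      ∑ k ∈ range d, ∑ i ∈ range d, ∑ j ∈ range d, f i j k := by
    intro f
    rw [Finset.sum_comm]
    have : ∀ i, ∑ j ∈ range d, ∑ k ∈ range d, f i j k = ∑ k ∈ range d, ∑ j ∈ range d, f i j k :=
      fun i => Finset.sum_comm
    simp_rw [this]
    rw [Finset.sum_comm]
  exact h2 _

/-- **The main equivalence.** -/
theorem isEx_main {n d : ℕ} {G : List QC} (hG : ∀ g ∈ G, GOk n g) (hne : G ≠ []) (hnd : n ≤ d)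
    {τ : ℕ} (hτ : τ < n) (hd : (eforms n G τ).length ≤ d) :
    IsEx d (fun i j k => (ten (eforms n G τ) i j k : ℝ)) (48 * (G.length : ℝ)) ↔ HomLt G τ := by
  have hm : (0 : ℝ) < G.length := by
    have : 0 < G.length := List.length_pos_iff.2 hne
    exact_mod_cast this
  set m : ℝ := (G.length : ℝ) with hmdef
  have hF := fok_eforms hG hτ
  have hFd : ∀ k, FOk d ((eforms n G τ).getD k []) := fun k t ht =>
    ⟨(fok_getD hF k t ht).1.trans_le hnd, (fok_getD hF k t ht).2.trans_le hnd⟩
  have hsub : range n ⊆ range d := Finset.range_subset_range.2 hnd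
  constructor
  · rintro ⟨x, y, z, hx, hy, hz, h⟩
    rw [triple_sum _ hFd] at h
    by_contra hcon
    unfold HomLt at hcon
    push Not at hcon
    have key : ∀ w : ℕ → ℝ, |∑ k ∈ range d, z k * fev w w ((eforms n G τ).getD k [])| ≤
        48 * m * ∑ i ∈ range d, w i ^ 2 := by
      intro w
      have h1 := sum_fev_sq_le (eforms n G τ) hd z w hz
      rw [S_eforms n G hG τ w] at h1
      have h2 := hcon w
      have h3 : ∑ i ∈ range n, w i ^ 2 ≤ ∑ i ∈ range d, w i ^ 2 :=
        Finset.sum_le_sum_of_subset_of_nonneg hsub (fun _ _ _ => sq_nonneg _)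
      have h4 : 0 ≤ ∑ i ∈ range n, w i ^ 2 := Finset.sum_nonneg (fun _ _ => sq_nonneg _)
      apply abs_le_of_sq_le_sq _ (by positivity)
      refine h1.trans ?_
      calc (48 * m) ^ 2 * (∑ i ∈ range n, w i ^ 2) ^ 2 -
            m * (G.map (fun g => gev w w g * gev w w g)).sum +
            fev w w (eform τ) * fev w w (eform τ)
          ≤ (48 * m) ^ 2 * (∑ i ∈ range n, w i ^ 2) ^ 2 := by linarith
        _ ≤ (48 * m) ^ 2 * (∑ i ∈ range d, w i ^ 2) ^ 2 := by gcongr
        _ = (48 * m * ∑ i ∈ range d, w i ^ 2) ^ 2 := by ring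
    have hp := key (fun i => x i + 1 * y i)
    have hq := key (fun i => x i + (-1) * y i)
    simp_rw [fev_comb] at hp hq
    set A := ∑ k ∈ range d, z k * fev x x ((eforms n G τ).getD k []) with hA
    set B := ∑ k ∈ range d, z k * fev x y ((eforms n G τ).getD k []) with hB
    set C := ∑ k ∈ range d, z k * fev y y ((eforms n G τ).getD k []) with hC
    have e1 : ∀ s : ℝ, ∑ k ∈ range d, z k * (fev x x ((eforms n G τ).getD k []) +
        2 * s * fev x y ((eforms n G τ).getD k []) +
        s ^ 2 * fev y y ((eforms n G τ).getD k [])) = A + 2 * s * B + s ^ 2 * C := by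
      intro s
      rw [hA, hB, hC, Finset.mul_sum, Finset.mul_sum, ← Finset.sum_add_distrib,
        ← Finset.sum_add_distrib]
      exact Finset.sum_congr rfl fun k _ => by ring
    set D := ∑ i ∈ range d, x i * y i with hD
    have e2 : ∀ s : ℝ, ∑ i ∈ range d, (x i + s * y i) ^ 2 = 1 + 2 * s * D + s ^ 2 := by
      intro s
      have : ∀ i, (x i + s * y i) ^ 2 = x i ^ 2 + 2 * s * (x i * y i) + s ^ 2 * y i ^ 2 := by
        intro i; ring
      simp_rw [this, Finset.sum_add_distrib, ← Finset.mul_sum]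
      rw [hx, hy, ← hD]
      ring
    rw [e1, e2] at hp hq
    have hp' := (abs_le.1 hp).2
    have hq' := (abs_le.1 hq).1
    nlinarith
  · rintro ⟨x₀, h₀⟩
    have e0 : fev x₀ x₀ (eform τ) ≠ 0 := by
      intro h
      rw [h] at h₀
      have : 0 ≤ (G.map (fun g => gev x₀ x₀ g * gev x₀ x₀ g)).sum := by
        apply List.sum_nonneg
        intro r hr
        obtain ⟨g, _, rfl⟩ := List.mem_map.1 hr
        exact mul_self_nonneg _
      nlinarith
    -- truncate
    let x : ℕ → ℝ := fun i => if i < n then x₀ i else 0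
    have hxn : ∀ i < n, x i = x₀ i := fun i hi => by simp [x, hi]
    have hxo : ∀ i, n ≤ i → x i = 0 := fun i hi => by simp [x, not_lt.2 hi]
    have hg : ∀ g ∈ G, gev x x g = gev x₀ x₀ g := by
      intro g hg
      obtain ⟨⟨a1, a2, a3⟩, ⟨b1, b2, b3⟩, ⟨c1, c2, c3⟩⟩ := hG g hg
      unfold gev tev
      rw [bev_congr hxn hxn a2 a3, bev_congr hxn hxn b2 b3, bev_congr hxn hxn c2 c3]
    have he : fev x x (eform τ) = fev x₀ x₀ (eform τ) :=
      fev_congr hxn hxn (hF _ List.mem_cons_self)
    have hlt : m * (G.map (fun g => gev x x g * gev x x g)).sum <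
        fev x x (eform τ) * fev x x (eform τ) := by
      rw [he, List.map_congr_left (g := fun g => gev x₀ x₀ g * gev x₀ x₀ g)
        (fun g hg' => by rw [hg g hg'])]
      exact h₀
    set a := ∑ i ∈ range n, x i ^ 2 with ha
    have ha0 : 0 < a := by
      have h1 : 0 ≤ a := Finset.sum_nonneg (fun _ _ => sq_nonneg _)
      rcases h1.lt_or_eq with h | h
      · exact h
      · exfalso
        have h2 := (Finset.sum_eq_zero_iff_of_nonneg (fun i _ => sq_nonneg (x i))).1 h.symm
        have h3 : x 0 = 0 := pow_eq_zero_iff two_ne_zero |>.1 (h2 0 (Finset.mem_range.2 (by omega)))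
        have h4 : x τ = 0 := pow_eq_zero_iff two_ne_zero |>.1 (h2 τ (Finset.mem_range.2 hτ))
        apply e0
        rw [← he, fev_eform, h3, h4]
        ring
    have hSx := S_eforms n G hG τ x
    rw [← ha, ← hmdef] at hSx
    set N := S x x x x (eforms n G τ) with hN
    have hN1 : (48 * m * a) ^ 2 < N := by
      rw [hSx]
      have : (48 * m * a) ^ 2 = (48 * m) ^ 2 * a ^ 2 := by ring
      rw [this]
      linarith
    have hN0 : 0 < N := lt_of_le_of_lt (sq_nonneg _) hN1
    have hsN : Real.sqrt N ^ 2 = N := Real.sq_sqrt hN0.le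
    have hsN0 : 0 < Real.sqrt N := Real.sqrt_pos.2 hN0
    have hsa : Real.sqrt a ^ 2 = a := Real.sq_sqrt ha0.le
    have hsa0 : 0 < Real.sqrt a := Real.sqrt_pos.2 ha0
    have had : ∑ i ∈ range d, x i ^ 2 = a := by
      rw [ha]
      symm
      apply Finset.sum_subset hsub
      intro i _ hi
      rw [hxo i (not_lt.1 (fun h => hi (Finset.mem_range.2 h)))]
      ring
    have hx1 : ∑ i ∈ range d, (x i / Real.sqrt a) ^ 2 = 1 := by
      simp_rw [div_pow, hsa]
      rw [← Finset.sum_div, had, div_self ha0.ne']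
    let z : ℕ → ℝ := fun k => fev x x ((eforms n G τ).getD k []) / Real.sqrt N
    have hsum : ∑ k ∈ range d, fev x x ((eforms n G τ).getD k []) *
        fev x x ((eforms n G τ).getD k []) = N := by
      rw [sum_getD (eforms n G τ) hd (fun f => fev x x f * fev x x f) (by simp)]
      rfl
    have hz : ∑ k ∈ range d, z k ^ 2 = 1 := by
      simp only [z]
      simp_rw [div_pow, hsN]
      rw [← Finset.sum_div]
      simp_rw [sq]
      rw [hsum, div_self hN0.ne']
    refine ⟨fun i => x i / Real.sqrt a, fun i => x i / Real.sqrt a, z, hx1, hx1, hz, ?_⟩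
    rw [triple_sum _ hFd]
    have hscale : ∀ f : List QT, fev (fun i => x i / Real.sqrt a) (fun i => x i / Real.sqrt a) f =
        fev x x f / a := by
      intro f
      rw [fev_div, ← sq, hsa]
    simp_rw [hscale]
    have h5 : ∀ k, z k * (fev x x ((eforms n G τ).getD k []) / a) =
        (1 / (Real.sqrt N * a)) * (fev x x ((eforms n G τ).getD k []) *
          fev x x ((eforms n G τ).getD k [])) := by
      intro k
      simp only [z]
      field_simp
    simp_rw [h5]
    rw [← Finset.mul_sum, hsum]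
    have h6 : 1 / (Real.sqrt N * a) * N = Real.sqrt N / a := by
      rw [div_mul_eq_mul_div, one_mul, div_eq_div_iff (by positivity) ha0.ne']
      nlinarith
    rw [h6, lt_div_iff₀ ha0]
    exact lt_of_pow_lt_pow_left₀ 2 hsN0.le (by rw [hsN]; exact hN1)

end Pool.Agent.V8H41.SN
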