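import Pool.Agent.V8H41.SN.Defs
import Pool.Agent.H78R3.TSV.Sing

/-!
# The spectral norm exceeds `σ` iff some triple of unit vectors does
-/

set_option autoImplicit false

namespace Pool.Agent.V8H41.SN

open Finset Pool.Agent.H78R3.TSV

/-- A version with vectors indexed by all natural numbers. -/
def IsEx (d : ℕ) (t : ℕ → ℕ → ℕ → ℝ) (σ : ℝ) : Prop :=
  ∃ x y z : ℕ → ℝ, ∑ i ∈ range d, x i ^ 2 = 1 ∧ ∑ i ∈ range d, y i ^ 2 = 1 ∧
    ∑ i ∈ range d, z i ^ 2 = 1 ∧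
    σ < ∑ i ∈ range d, ∑ j ∈ range d, ∑ k ∈ range d, t i j k * x i * y j * z k

theorem coord_le {d : ℕ} {x : EuclideanSpace ℝ (Fin d)} (hx : ‖x‖ = 1) (i : Fin d) :
    |x i| ≤ 1 := by
  have := PiLp.norm_apply_le x i
  rw [hx] at this
  exact this

theorem form_bdd {d : ℕ} (t : Fin d → Fin d → Fin d → ℝ) :
    BddAbove {r : ℝ | ∃ x y z : EuclideanSpace ℝ (Fin d), ‖x‖ = 1 ∧ ‖y‖ = 1 ∧ ‖z‖ = 1 ∧
      r = |form t x y z|} := by
  refine ⟨∑ i, ∑ j, ∑ k, |t i j k|, ?_⟩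
  rintro r ⟨x, y, z, hx, hy, hz, rfl⟩
  unfold form
  refine (Finset.abs_sum_le_sum_abs _ _).trans (Finset.sum_le_sum fun i _ => ?_)
  refine (Finset.abs_sum_le_sum_abs _ _).trans (Finset.sum_le_sum fun j _ => ?_)
  refine (Finset.abs_sum_le_sum_abs _ _).trans (Finset.sum_le_sum fun k _ => ?_)
  rw [abs_mul, abs_mul, abs_mul]
  have h1 := coord_le hx i
  have h2 := coord_le hy j
  have h3 := coord_le hz k
  have h0 := abs_nonneg (t i j k)
  calc |t i j k| * |x i| * |y j| * |z k| ≤ |t i j k| * 1 * 1 * 1 := by gcongr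
    _ = |t i j k| := by ring

theorem form_neg {d : ℕ} (t : Fin d → Fin d → Fin d → ℝ) (x y z : EuclideanSpace ℝ (Fin d)) :
    form t (-x) y z = - form t x y z := by
  unfold form
  simp only [PiLp.neg_apply, mul_neg, neg_mul, Finset.sum_neg_distrib]

/-- The spectral norm exceeds `σ ≥ 0` if and only if `T(x, y, z) > σ` for some unit vectors. -/
theorem lt_spectralNorm {d : ℕ} (t : Fin d → Fin d → Fin d → ℝ) {σ : ℝ} (hσ : 0 ≤ σ) :
    σ < spectralNorm t ↔ ∃ x y z : EuclideanSpace ℝ (Fin d), ‖x‖ = 1 ∧ ‖y‖ = 1 ∧ ‖z‖ = 1 ∧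
      σ < form t x y z := by
  constructor
  · intro h
    unfold spectralNorm at h
    by_cases hne : {r : ℝ | ∃ x y z : EuclideanSpace ℝ (Fin d), ‖x‖ = 1 ∧ ‖y‖ = 1 ∧ ‖z‖ = 1 ∧
      r = |form t x y z|}.Nonempty
    · obtain ⟨r, ⟨x, y, z, hx, hy, hz, rfl⟩, hr⟩ := exists_lt_of_lt_csSup hne h
      rcases le_total 0 (form t x y z) with h0 | h0
      · exact ⟨x, y, z, hx, hy, hz, by rwa [abs_of_nonneg h0] at hr⟩
      · refine ⟨-x, y, z, by rwa [norm_neg], hy, hz, ?_⟩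
        rw [form_neg]
        rwa [abs_of_nonpos h0] at hr
    · rw [Set.not_nonempty_iff_eq_empty.1 hne, Real.sSup_empty] at h
      exact absurd h (not_lt.2 hσ)
  · rintro ⟨x, y, z, hx, hy, hz, h⟩
    exact (h.trans_le (le_abs_self _)).trans_le
      (le_csSup (form_bdd t) ⟨x, y, z, hx, hy, hz, rfl⟩)

theorem isEx_iff {d : ℕ} (t : ℕ → ℕ → ℕ → ℝ) {σ : ℝ} (hσ : 0 ≤ σ) :
    σ < spectralNorm (fun i j k : Fin d => t i j k) ↔ IsEx d t σ := by
  rw [lt_spectralNorm _ hσ]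
  constructor
  · rintro ⟨x, y, z, hx, hy, hz, h⟩
    rw [norm_eq_one_iff] at hx hy hz
    let X : ℕ → ℝ := fun i => if h : i < d then x ⟨i, h⟩ else 0
    let Y : ℕ → ℝ := fun i => if h : i < d then y ⟨i, h⟩ else 0
    let Z : ℕ → ℝ := fun i => if h : i < d then z ⟨i, h⟩ else 0
    have eX : ∀ i : Fin d, X i = x i := fun i => by simp [X]
    have eY : ∀ i : Fin d, Y i = y i := fun i => by simp [Y]
    have eZ : ∀ i : Fin d, Z i = z i := fun i => by simp [Z]
    refine ⟨X, Y, Z, ?_, ?_, ?_, ?_⟩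
    · rw [← Fin.sum_univ_eq_sum_range (fun i => X i ^ 2)]; simpa only [eX] using hx
    · rw [← Fin.sum_univ_eq_sum_range (fun i => Y i ^ 2)]; simpa only [eY] using hy
    · rw [← Fin.sum_univ_eq_sum_range (fun i => Z i ^ 2)]; simpa only [eZ] using hz
    · rw [← Fin.sum_univ_eq_sum_range
        (fun i => ∑ j ∈ range d, ∑ k ∈ range d, t i j k * X i * Y j * Z k)]
      simp_rw [← Fin.sum_univ_eq_sum_range
        (fun j => ∑ k ∈ range d, t _ j k * X _ * Y j * Z k)]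
      simp_rw [← Fin.sum_univ_eq_sum_range (fun k => t _ _ k * X _ * Y _ * Z k), eX, eY, eZ]
      exact h
  · rintro ⟨x, y, z, hx, hy, hz, h⟩
    refine ⟨WithLp.toLp 2 fun i => x i, WithLp.toLp 2 fun i => y i, WithLp.toLp 2 fun i => z i,
      ?_, ?_, ?_, ?_⟩
    · rw [norm_eq_one_iff, ← hx]
      exact Fin.sum_univ_eq_sum_range (fun i => x i ^ 2) d
    · rw [norm_eq_one_iff, ← hy]
      exact Fin.sum_univ_eq_sum_range (fun i => y i ^ 2) d
    · rw [norm_eq_one_iff, ← hz]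
      exact Fin.sum_univ_eq_sum_range (fun i => z i ^ 2) d
    · rw [← Fin.sum_univ_eq_sum_range
        (fun i => ∑ j ∈ range d, ∑ k ∈ range d, t i j k * x i * y j * z k)] at h
      simp_rw [← Fin.sum_univ_eq_sum_range
        (fun j => ∑ k ∈ range d, t _ j k * x _ * y j * z k)] at h
      simp_rw [← Fin.sum_univ_eq_sum_range (fun k => t _ _ k * x _ * y _ * z k)] at h
      exact h

/-- For valid instances the problem is the one with vectors indexed by natural numbers. -/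
theorem exceed_iff (q : List (List (List ℚ)) × ℚ) : SpectralNormExceed q ↔ IsInstance q ∧
    IsEx q.1.length (fun i j k => ((entry q.1 i j k : ℚ) : ℝ)) (q.2 : ℝ) := by
  unfold SpectralNormExceed
  constructor
  · rintro ⟨h1, h2⟩
    have h3 : (0 : ℝ) ≤ (q.2 : ℝ) := by exact_mod_cast h1.2.2.le
    exact ⟨h1, (isEx_iff (fun i j k => ((entry q.1 i j k : ℚ) : ℝ)) h3).1 h2⟩
  · rintro ⟨h1, h2⟩
    have h3 : (0 : ℝ) ≤ (q.2 : ℝ) := by exact_mod_cast h1.2.2.le
    exact ⟨h1, (isEx_iff (fun i j k => ((entry q.1 i j k : ℚ) : ℝ)) h3).2 h2⟩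

theorem not_bound_iff (q : List (List (List ℚ)) × ℚ) (hq : IsInstance q) :
    ¬ SpectralNormBound q ↔ SpectralNormExceed q := by
  unfold SpectralNormBound SpectralNormExceed
  simp only [hq, true_and, not_le]

end Pool.Agent.V8H41.SN
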