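import Pool.Agent.V8H41.SN.Main
import Pool.Agent.ER.GapSys
import Pool.Agent.H78R3.TSV.Red

/-!
# From systems of constraints to quadratic systems with a tiny number
-/

set_option autoImplicit false

namespace Pool.Agent.V8H41.SN

open Finset Pool.Agent.NPC Pool.Agent.NPC.ER Pool.Agent.H78R3.TSV

/-- Renaming of the variables. -/
def ren : ER.Con → ER.Con
  | ER.Con.one i => ER.Con.one (2 * i)
  | ER.Con.add i j k => ER.Con.add (2 * i) (2 * j) (2 * k)
  | ER.Con.mul i j k => ER.Con.mul (2 * i) (2 * j) (2 * k)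

theorem err_ren (w : ℕ → ℝ) (c : ER.Con) : (ren c).err w = c.err (fun i => w (2 * i)) := by
  cases c <;> rfl

/-- The length of the chain of squarings. -/
def cK (S : List ER.Con) : ℕ := gapK (bsys S).length + 256

/-- The system with the chain `y₀ = 1/8`, `y_{j+1} = y_j²`. -/
def csys (S : List ER.Con) : List ER.Con :=
  ER.Con.one 1 :: ((List.range (cK S)).map (fun j => ER.Con.mul (2 * j + 1) (2 * j + 1) (2 * j + 3)) ++
    (bsys S).map ren)

/-- The bound `4 x² + 4 s² = x₀²`. -/
def slack4 (N r : ℕ) : QC := ((4, r + 1, r + 1), (4, N + 1 + r, N + 1 + r), (-1, 0, 0))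

/-- The homogeneous system. -/
def gsys (T : List ER.Con) : List QC :=
  T.map (hcon (svars T)) ++ (List.range (svars T).length).map (slack4 (svars T).length)

/-- The index of the tiny number. -/
def tau (S : List ER.Con) : ℕ := ix (svars (csys S)) (2 * cK S + 1)

theorem gsys_ok (T : List ER.Con) : ∀ g ∈ gsys T, GOk (hn T) g := by
  intro g hg
  unfold gsys at hg
  rw [List.mem_append, List.mem_map, List.mem_map] at hg
  rcases hg with ⟨c, hc, rfl⟩ | ⟨r, hr, rfl⟩
  · apply hsys_ok T
    unfold hsys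
    exact List.mem_append_left _ (List.mem_map.2 ⟨c, hc, rfl⟩)
  · have := List.mem_range.1 hr
    refine ⟨⟨by simp [slack4], ?_, ?_⟩, ⟨by simp [slack4], ?_, ?_⟩, ⟨by simp [slack4], ?_, ?_⟩⟩ <;>
        simp only [slack4, hn] <;> omega

theorem cK_pos (S : List ER.Con) : 256 ≤ cK S := by unfold cK; omega

theorem length_gsys (S : List ER.Con) : 256 ≤ (gsys (csys S)).length := by
  have := cK_pos S
  unfold gsys csys
  simp only [List.length_append, List.length_map, List.length_cons, List.length_range]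
  omega

theorem chain_mem {S : List ER.Con} {j : ℕ} (hj : j < cK S) :
    ER.Con.mul (2 * j + 1) (2 * j + 1) (2 * j + 3) ∈ csys S := by
  unfold csys
  refine List.mem_cons_of_mem _ (List.mem_append_left _ ?_)
  exact List.mem_map.2 ⟨j, List.mem_range.2 hj, rfl⟩

theorem tau_mem (S : List ER.Con) : 2 * cK S + 1 ∈ svars (csys S) := by
  have h := cK_pos S
  refine mem_svars (chain_mem (S := S) (j := cK S - 1) (by omega)) ?_
  simp only [Con.vars, List.mem_cons, List.not_mem_nil, or_false]
  omega

theorem tau_lt (S : List ER.Con) : tau S < hn (csys S) := by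
  have := List.idxOf_lt_length_of_mem (tau_mem S)
  unfold tau ix hn
  omega

/-- The value of a homogenized constraint. -/
theorem gev_hcon (V : List ℕ) (x : ℕ → ℝ) (h0 : x 0 ≠ 0) (c : ER.Con) :
    gev x x (hcon V c) = 2 * x 0 ^ 2 * c.err (fun i => x (ix V i) / x 0) := by
  cases c with
  | one i =>
    simp only [gev, tev, bev, hcon, Con.err]
    push_cast
    field_simp
    ring
  | add i j k =>
    simp only [gev, tev, bev, hcon, Con.err]
    push_cast
    field_simp
    ring
  | mul i j k =>
    simp only [gev, tev, bev, hcon, Con.err]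
    push_cast
    field_simp
    ring

theorem mul_sum_lt {m : ℝ} {l : List ℝ} (h : ∀ a ∈ l, 0 ≤ a) {e : ℝ} (hm : 0 < m)
    (hl : m * l.sum < e) : ∀ a ∈ l, m * a < e := by
  intro a ha
  have : a ≤ l.sum := List.single_le_sum h a ha
  have := mul_le_mul_of_nonneg_left this hm.le
  linarith

theorem aux1 {a x : ℝ} (h : 0 ≤ a) (hx : 0 < x) (e : x * a < 0) : False := by
  have := mul_nonneg hx.le h
  linarith

theorem aux2 {L X r w e : ℝ} (h1 : L * (2 * X * r * (2 * X * r)) < e)
    (h2 : 256 * (2 * X * r * (2 * X * r)) ≤ L * (2 * X * r * (2 * X * r)))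
    (he : e = w ^ 2 * (4 * X ^ 2)) (hX : 0 < X) : 256 * r ^ 2 < w ^ 2 := by
  have h3 : 256 * r ^ 2 * (4 * X ^ 2) < w ^ 2 * (4 * X ^ 2) := by
    calc 256 * r ^ 2 * (4 * X ^ 2) = 256 * (2 * X * r * (2 * X * r)) := by ring
      _ ≤ L * (2 * X * r * (2 * X * r)) := h2
      _ < e := h1
      _ = w ^ 2 * (4 * X ^ 2) := he
  exact lt_of_mul_lt_mul_right h3 (by positivity)

theorem aux3 {r t : ℝ} (h : 256 * r ^ 2 < t ^ 2) (ht : 0 ≤ t) : |r| < t / 16 := by
  have h6 : |r| ^ 2 < (t / 16) ^ 2 := by
    rw [sq_abs, div_pow]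
    linarith
  exact lt_of_pow_lt_pow_left₀ 2 (by positivity) h6

theorem aux4 {a s t : ℝ} (h : 2 * (2 * a ^ 2 + 2 * s ^ 2) - 1 < t) : 4 * a ^ 2 ≤ 1 + t := by
  have := sq_nonneg s
  linarith

theorem aux5 {t : ℝ} (h : 4 * t ^ 2 ≤ 1 + t / 16) : t ≤ 1 := by
  by_contra hc
  push Not at hc
  have : t < t ^ 2 := by rw [sq]; nlinarith
  linarith

theorem aux6 {a t : ℝ} (h : 4 * a ^ 2 ≤ 1 + t / 16) (ht : t ≤ 1) : |a| ≤ 1 := by
  have h1 : a ^ 2 ≤ 1 ^ 2 := by linarith
  exact abs_le_of_sq_le_sq h1 (by norm_num)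

theorem aux7 {a s : ℝ} (h : s * s = 1 / 4 - a ^ 2) :
    4 * (a * a + a * a) + (4 * (s * s + s * s)) + (-1) * (1 * 1 + 1 * 1) = 0 := by
  rw [h]
  ring

theorem aux8 {y z a t b : ℝ} (h2 : |y - z| ≤ t / 16) (h7 : 0 ≤ y) (h6 : y ≤ (a + t / 8) ^ 2)
    (ha : a ≤ 1 / 8) (ha0 : 0 < a) (ht0 : 0 ≤ t) (ht1 : t ≤ 1) (hb : b = a ^ 2) :
    |z| ≤ b + t / 8 := by
  have h3 := abs_le.1 h2
  have h4 : (a + t / 8) ^ 2 = a ^ 2 + a * t / 4 + t * t / 64 := by ring
  have h5 : a * t ≤ 1 / 8 * t := mul_le_mul_of_nonneg_right ha ht0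
  have h8 : t * t ≤ 1 * t := mul_le_mul_of_nonneg_right ht1 ht0
  have h9 : 0 ≤ a ^ 2 := sq_nonneg a
  rw [hb, abs_le]
  constructor
  · linarith [h3.1, h3.2]
  · linarith [h3.1, h3.2]

/-- The chain forces the last number to be tiny. -/
theorem chain_bound {K : ℕ} (y : ℕ → ℝ) {t : ℝ} (ht0 : 0 ≤ t) (ht1 : t ≤ 1)
    (h0 : |8 * y 0 - 1| ≤ t / 16) (hs : ∀ j < K, |y j * y j - y (j + 1)| ≤ t / 16) :
    ∀ j ≤ K, |y j| ≤ (1 / 8) ^ 2 ^ j + t / 8 := by
  intro j
  induction j with
  | zero =>
    intro _
    have h1 := abs_le.1 h0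
    rw [pow_zero, pow_one, abs_le]
    constructor <;> linarith [h1.1, h1.2]
  | succ j ih =>
    intro hj
    have h1 := ih (by omega)
    have h3 : (0 : ℝ) < (1 / 8) ^ 2 ^ j := by positivity
    have h4 : ((1 : ℝ) / 8) ^ 2 ^ j ≤ 1 / 8 := by
      calc ((1 : ℝ) / 8) ^ 2 ^ j ≤ (1 / 8) ^ 1 :=
            pow_le_pow_of_le_one (by norm_num) (by norm_num) Nat.one_le_two_pow
        _ = 1 / 8 := pow_one _
    set a : ℝ := (1 / 8) ^ 2 ^ j with ha
    have h5 : ((1 : ℝ) / 8) ^ 2 ^ (j + 1) = a ^ 2 := by
      rw [ha, ← pow_mul, pow_succ]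
    have h6 : y j * y j ≤ (a + t / 8) ^ 2 := by
      have : y j * y j = |y j| ^ 2 := by rw [sq_abs, sq]
      rw [this]
      exact pow_le_pow_left₀ (abs_nonneg _) h1 2
    have h7 : 0 ≤ y j * y j := mul_self_nonneg _
    exact aux8 (hs j (by omega)) h7 h6 h4 h3 ht0 ht1 h5

/-- **Correctness of the quadratic system.** -/
theorem homLt_iff (S : List ER.Con) : HomLt (gsys (csys S)) (tau S) ↔ Sat S := by
  set T := csys S with hT
  set V := svars T with hV
  set N := V.length with hN
  have hlen : (256 : ℝ) ≤ ((gsys T).length : ℝ) := by exact_mod_cast length_gsys S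
  constructor
  · rintro ⟨x, hx⟩
    have hnn : ∀ a ∈ (gsys T).map (fun g => gev x x g * gev x x g), 0 ≤ a := by
      intro r hr
      obtain ⟨g, _, rfl⟩ := List.mem_map.1 hr
      exact mul_self_nonneg _
    have hs0 := List.sum_nonneg hnn
    have he : fev x x (eform (tau S)) = 2 * x 0 * x (tau S) := by rw [fev_eform]; ring
    rw [he] at hx
    have hx0 : x 0 ≠ 0 := by
      intro h0
      rw [h0, mul_zero, zero_mul, zero_mul] at hx
      exact aux1 hs0 (by linarith : (0 : ℝ) < ((gsys T).length : ℝ)) hx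
    have hxp : 0 < x 0 ^ 2 := by positivity
    have key := mul_sum_lt hnn (by linarith : (0 : ℝ) < ((gsys T).length : ℝ)) hx
    set w : ℕ → ℝ := fun i => x (ix V i) / x 0 with hw
    set t : ℝ := |w (2 * cK S + 1)| with ht
    have hxt : x (tau S) = w (2 * cK S + 1) * x 0 := by
      simp only [hw, tau]
      rw [div_mul_cancel₀ _ hx0]
    have hall : ∀ g ∈ gsys T, ∀ r : ℝ, gev x x g = 2 * x 0 ^ 2 * r → |r| < t / 16 := by
      intro g hg r hr
      have h1 := key _ (List.mem_map.2 ⟨g, hg, rfl⟩)
      rw [hr, hxt] at h1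
      have h2 : 256 * (2 * x 0 ^ 2 * r * (2 * x 0 ^ 2 * r)) ≤
          ((gsys T).length : ℝ) * (2 * x 0 ^ 2 * r * (2 * x 0 ^ 2 * r)) :=
        mul_le_mul_of_nonneg_right hlen (mul_self_nonneg _)
      refine aux3 ?_ (abs_nonneg _)
      rw [sq_abs]
      exact aux2 h1 h2 (by ring) hxp
    have hcon : ∀ c ∈ T, |c.err w| < t / 16 := by
      intro c hc
      refine hall (hcon V c) ?_ _ (gev_hcon V x hx0 c)
      unfold gsys
      exact List.mem_append_left _ (List.mem_map.2 ⟨c, hc, rfl⟩)
    have hsl : ∀ r < N, |2 * (2 * (x (r + 1) / x 0) ^ 2 + 2 * (x (N + 1 + r) / x 0) ^ 2) - 1| <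
        t / 16 := by
      intro r hr
      refine hall (slack4 N r) ?_ _ ?_
      · unfold gsys
        exact List.mem_append_right _ (List.mem_map.2 ⟨r, List.mem_range.2 hr, rfl⟩)
      · simp only [gev, tev, bev, slack4]
        push_cast
        field_simp
        ring
    have hbd : ∀ i ∈ V, 4 * w i ^ 2 ≤ 1 + t / 16 := by
      intro i hi
      have h1 := hsl (V.idxOf i) (List.idxOf_lt_length_of_mem hi)
      exact aux4 (abs_lt.1 h1).2
    have ht0 : 0 ≤ t := abs_nonneg _
    have ht1 : t ≤ 1 := by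
      have h1 := hbd _ (tau_mem S)
      have h2 : w (2 * cK S + 1) ^ 2 = t ^ 2 := by rw [ht, sq_abs]
      rw [h2] at h1
      exact aux5 h1
    have hch := chain_bound (K := cK S) (fun j => w (2 * j + 1)) ht0 ht1
      (by
        have h1 := hcon (ER.Con.one 1) (by rw [hT]; unfold csys; exact List.mem_cons_self)
        exact h1.le)
      (fun j hj => by
        have h1 := hcon _ (chain_mem hj)
        exact h1.le) (cK S) le_rfl
    have ht2 : t ≤ 2 * (1 / 8) ^ 2 ^ cK S := by
      have h1 : t ≤ (1 / 8) ^ 2 ^ cK S + t / 8 := hch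
      have h2 : (0 : ℝ) < (1 / 8) ^ 2 ^ cK S := by positivity
      linarith
    obtain ⟨w', hw'⟩ := holds_of_approx (S := bsys S) (w := fun i => w (2 * i)) (by
        intro i hi
        have h0 : 2 * i ∈ V := by
          unfold svars at hi
          rw [List.mem_flatMap] at hi
          obtain ⟨c, hc, hi⟩ := hi
          refine mem_svars (c := ren c) ?_ ?_
          · rw [hT]
            unfold csys
            exact List.mem_cons_of_mem _ (List.mem_append_right _ (List.mem_map.2 ⟨c, hc, rfl⟩))
          · cases c <;> simp only [ren, Con.vars, List.mem_cons, List.not_mem_nil, or_false] at hi ⊢ <;>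
              omega
        exact aux6 (hbd _ h0) ht1)
      (by
        intro c hc
        have h1 := hcon (ren c) (by
          rw [hT]
          unfold csys
          exact List.mem_cons_of_mem _ (List.mem_append_right _ (List.mem_map.2 ⟨c, hc, rfl⟩)))
        rw [err_ren] at h1
        have h2 : ((1 : ℝ) / 8) ^ 2 ^ cK S * 2 ^ 2 ^ gapK (bsys S).length ≤ 1 := by
          have h3 : ((1 : ℝ) / 8) ^ 2 ^ cK S ≤ (1 / 2) ^ 2 ^ gapK (bsys S).length := by
            calc ((1 : ℝ) / 8) ^ 2 ^ cK S ≤ (1 / 8) ^ 2 ^ gapK (bsys S).length :=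
                  pow_le_pow_of_le_one (by norm_num) (by norm_num)
                    (Nat.pow_le_pow_right (by norm_num) (by unfold cK; omega))
              _ ≤ (1 / 2) ^ 2 ^ gapK (bsys S).length :=
                  pow_le_pow_left₀ (by norm_num) (by norm_num) _
          calc _ ≤ ((1 : ℝ) / 2) ^ 2 ^ gapK (bsys S).length * 2 ^ 2 ^ gapK (bsys S).length :=
                mul_le_mul_of_nonneg_right h3 (by positivity)
            _ = 1 := by rw [← mul_pow]; norm_num
        have h4 : (0 : ℝ) < 2 ^ 2 ^ gapK (bsys S).length := by positivity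
        calc |c.err fun i => w (2 * i)| * 2 ^ 2 ^ gapK (bsys S).length
            ≤ (1 / 8) ^ 2 ^ cK S * 2 ^ 2 ^ gapK (bsys S).length := by
              apply mul_le_mul_of_nonneg_right _ h4.le
              have h5 : (0 : ℝ) < (1 / 8) ^ 2 ^ cK S := by positivity
              linarith
          _ ≤ 1 := h2)
    exact sat_of_bsys hw'
  · intro h
    obtain ⟨w, hw, hc⟩ := bsys_of_sat h
    let u : ℕ → ℝ := fun i => if i % 2 = 0 then w (i / 2) else (1 / 8) ^ 2 ^ (i / 2)
    have u0 : ∀ i, u (2 * i) = w i := by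
      intro i
      simp only [u]
      rw [if_pos (by omega)]
      congr 1
      omega
    have u1 : ∀ i, u (2 * i + 1) = (1 / 8) ^ 2 ^ i := by
      intro i
      simp only [u]
      rw [if_neg (by omega)]
      congr 2
      omega
    have ub : ∀ i, |u i| ≤ 1 / 8 := by
      intro i
      simp only [u]
      split_ifs
      · exact hw _
      · rw [abs_of_pos (by positivity)]
        calc ((1 : ℝ) / 8) ^ 2 ^ (i / 2) ≤ (1 / 8) ^ 1 :=
              pow_le_pow_of_le_one (by norm_num) (by norm_num) Nat.one_le_two_pow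
          _ = 1 / 8 := pow_one _
    have uT : ∀ c ∈ T, c.err u = 0 := by
      intro c hcT
      rw [hT] at hcT
      unfold csys at hcT
      rw [List.mem_cons, List.mem_append, List.mem_map, List.mem_map] at hcT
      rcases hcT with rfl | ⟨j, _, rfl⟩ | ⟨c, hcb, rfl⟩
      · have := u1 0
        simp only [mul_zero, zero_add, pow_zero, pow_one] at this
        simp only [Con.err, this]
        norm_num
      · have e1 : 2 * j + 3 = 2 * (j + 1) + 1 := by ring
        simp only [Con.err]
        rw [e1, u1, u1, ← pow_add, pow_succ 2 j, mul_two, sub_self]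
      · rw [err_ren]
        have : (fun i => u (2 * i)) = w := funext u0
        rw [this, Con.err_eq_zero]
        exact hc c hcb
    let x : ℕ → ℝ := fun i => if i = 0 then 1 else if i < N + 1 then u (V.getD (i - 1) 0) else
      Real.sqrt (1 / 4 - u (V.getD (i - (N + 1)) 0) ^ 2)
    have x0 : x 0 = 1 := by simp [x]
    have x1 : ∀ r < N, x (r + 1) = u (V.getD r 0) := by
      intro r hr
      simp only [x]
      rw [if_neg (by omega), if_pos (by omega)]
      simp
    have x2 : ∀ r < N, x (N + 1 + r) = Real.sqrt (1 / 4 - u (V.getD r 0) ^ 2) := by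
      intro r hr
      simp only [x]
      rw [if_neg (by omega), if_neg (by omega), show N + 1 + r - (N + 1) = r by omega]
    have xi : ∀ i ∈ V, x (ix V i) = u i := by
      intro i hi
      have h1 := List.idxOf_lt_length_of_mem hi
      unfold ix
      rw [x1 _ h1, List.getD_eq_getElem _ _ h1, List.getElem_idxOf h1]
    have hz : ∀ g ∈ gsys T, gev x x g = 0 := by
      intro g hg
      unfold gsys at hg
      rw [List.mem_append, List.mem_map, List.mem_map] at hg
      rcases hg with ⟨c, hcT, rfl⟩ | ⟨r, hr, rfl⟩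
      · have hne : x 0 ≠ 0 := by rw [x0]; norm_num
        rw [gev_hcon _ _ hne]
        have hh := uT c hcT
        have : c.err (fun i => x (ix (svars T) i) / x 0) = c.err u := by
          cases c with
          | one i =>
            have e1 := xi i (mem_svars hcT (by simp [Con.vars]))
            simp only [Con.err]
            rw [← hV, e1, x0, div_one]
          | add i j k =>
            have e1 := xi i (mem_svars hcT (by simp [Con.vars]))
            have e2 := xi j (mem_svars hcT (by simp [Con.vars]))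
            have e3 := xi k (mem_svars hcT (by simp [Con.vars]))
            simp only [Con.err]
            rw [← hV, e1, e2, e3, x0, div_one, div_one, div_one]
          | mul i j k =>
            have e1 := xi i (mem_svars hcT (by simp [Con.vars]))
            have e2 := xi j (mem_svars hcT (by simp [Con.vars]))
            have e3 := xi k (mem_svars hcT (by simp [Con.vars]))
            simp only [Con.err]
            rw [← hV, e1, e2, e3, x0, div_one, div_one, div_one]
        rw [this, hh]
        ring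
      · have hr := List.mem_range.1 hr
        simp only [gev, tev, bev, slack4]
        rw [← hV, ← hN, x1 r hr, x2 r hr, x0]
        push_cast
        have h1 : 0 ≤ 1 / 4 - u (V.getD r 0) ^ 2 := by
          have := ub (V.getD r 0)
          have h2 : u (V.getD r 0) ^ 2 ≤ (1 / 8) ^ 2 := by
            rw [← sq_abs]
            exact pow_le_pow_left₀ (abs_nonneg _) this 2
          have h3 : ((1 : ℝ) / 8) ^ 2 ≤ 1 / 4 := by norm_num
          linarith
        exact aux7 (Real.mul_self_sqrt h1)
    refine ⟨x, ?_⟩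
    have hsum : ((gsys T).map (fun g => gev x x g * gev x x g)).sum = 0 := by
      apply List.sum_eq_zero
      intro r hr
      obtain ⟨g, hg, rfl⟩ := List.mem_map.1 hr
      rw [hz g hg, zero_mul]
    rw [hsum, mul_zero, fev_eform]
    have h1 : x (tau S) = (1 / 8) ^ 2 ^ cK S := by
      unfold tau
      rw [← hT, ← hV, xi _ (tau_mem S), u1]
    rw [h1, x0]
    positivity

/-! ### The instance -/

/-- The forms. -/
def sforms (S : List ER.Con) : List (List QT) :=
  eforms (hn (csys S)) (gsys (csys S)) (tau S)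

/-- The instance of a system: a tensor and a number. -/
def sinst (S : List ER.Con) : List (List (List ℚ)) × ℚ :=
  (tenL (hn (csys S) + (sforms S).length) (sforms S),
    (((48 * (gsys (csys S)).length : ℕ) : ℤ) : ℚ))

theorem isEx_congr {d : ℕ} {t t' : ℕ → ℕ → ℕ → ℝ} {σ : ℝ}
    (h : ∀ i < d, ∀ j < d, ∀ k < d, t i j k = t' i j k) : IsEx d t σ → IsEx d t' σ := by
  rintro ⟨x, y, z, hx, hy, hz, h1⟩
  refine ⟨x, y, z, hx, hy, hz, h1.trans_le (le_of_eq ?_)⟩
  exact Finset.sum_congr rfl fun i hi => Finset.sum_congr rfl fun j hj =>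
    Finset.sum_congr rfl fun k hk => by
      rw [h i (Finset.mem_range.1 hi) j (Finset.mem_range.1 hj) k (Finset.mem_range.1 hk)]

theorem tenL_instance {d : ℕ} (hd : 0 < d) (L : List (List QT)) {q : ℚ} (hq : 0 < q) :
    IsInstance (tenL d L, q) := by
  refine ⟨?_, isCube_tenL _ _, hq⟩
  intro h
  have h2 := length_tenL d L
  rw [show tenL d L = [] from h] at h2
  simp only [List.length_nil] at h2
  omega

theorem tenL_exceed {d : ℕ} (hd : 0 < d) (L : List (List QT)) {q : ℚ} (hq : 0 < q) :
    SpectralNormExceed (tenL d L, q) ↔ IsEx d (fun i j k => (ten L i j k : ℝ)) (q : ℝ) := by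
  rw [exceed_iff, and_iff_right (tenL_instance hd L hq)]
  have h3 : (tenL d L, q).1.length = d := length_tenL _ _
  rw [h3]
  have hent : ∀ i < d, ∀ j < d, ∀ k < d,
      ((entry (tenL d L, q).1 i j k : ℚ) : ℝ) = (ten L i j k : ℝ) := by
    intro i hi j hj k hk
    rw [entry_tenL hi hj hk]
    push_cast
    rfl
  exact ⟨isEx_congr hent, isEx_congr fun i hi j hj k hk => (hent i hi j hj k hk).symm⟩

theorem cast48 (n : ℕ) (hn : 0 < n) : (0 : ℚ) < (((48 * n : ℕ) : ℤ) : ℚ) := by
  have : 0 < 48 * n := by omega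
  exact_mod_cast this

theorem cast48' (n : ℕ) : (((((48 * n : ℕ) : ℤ) : ℚ)) : ℝ) = 48 * (n : ℝ) := by
  push_cast
  ring

theorem hn_pos (T : List ER.Con) : 0 < hn T := by unfold hn; omega

theorem sinst_ok (S : List ER.Con) : IsInstance (sinst S) := by
  have h1 := length_gsys S
  exact tenL_instance (Nat.add_pos_left (hn_pos _) _) _ (cast48 _ (by omega))

/-- **Correctness of the reduction.** -/
theorem sat_iff_exceed (S : List ER.Con) : Sat S ↔ SpectralNormExceed (sinst S) := by
  have h1 := length_gsys S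
  have hne : gsys (csys S) ≠ [] := by
    intro h
    rw [h] at h1
    simp at h1
  have h2 : 0 < (gsys (csys S)).length := by omega
  unfold sinst
  rw [tenL_exceed (Nat.add_pos_left (hn_pos _) _) _ (cast48 _ h2), cast48', ← homLt_iff S]
  exact (isEx_main (gsys_ok (csys S)) hne (Nat.le_add_right _ _) (tau_lt S)
    (Nat.le_add_left _ _)).symm

end Pool.Agent.V8H41.SN
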