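import Pool.Agent.V8H41.SN.Sys
import Pool.Agent.H78R3.TSV.Mem

/-!
# Polynomial time, and membership in `∃ℝ`
-/

set_option autoImplicit false

namespace Pool.Agent.NPC.V8H41SN

open Pool.Agent.NPC Pool.Agent.NPC.ER Pool.Agent.H78R3.TSV Pool.Agent.NPC.H78TSV
open Pool.Agent.NPC.H670R2 Pool.Agent.V8H41.SN Finset

section

variable {α : Type} [TEnc α]

theorem ren_eq (c : ER.Con) : ren c =
    if c.code.1 = 0 then ER.Con.one (2 * c.code.2.1)
    else if c.code.1 = 1 then ER.Con.add (2 * c.code.2.1) (2 * c.code.2.2.1) (2 * c.code.2.2.2)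
    else ER.Con.mul (2 * c.code.2.1) (2 * c.code.2.2.1) (2 * c.code.2.2.2) := by
  cases c <;> rfl

theorem poly_ren {c : α → ER.Con} (hc : Poly c) : Poly (fun a => ren (c a)) := by
  have h0 : Poly (fun a => (c a).code) := poly_con_code hc
  have i1 := Poly.mul (Poly.const 2) (Poly.fst (Poly.snd h0))
  have i2 := Poly.mul (Poly.const 2) (Poly.fst (Poly.snd (Poly.snd h0)))
  have i3 := Poly.mul (Poly.const 2) (Poly.snd (Poly.snd (Poly.snd h0)))
  exact (Poly.ite (Poly.decide_eq (Poly.fst h0) (Poly.const 0)) (poly_con_one i1)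
    (Poly.ite (Poly.decide_eq (Poly.fst h0) (Poly.const 1)) (poly_con_add i1 i2 i3)
      (poly_con_mul i1 i2 i3))).congr fun a => (ren_eq _).symm

theorem upoly_cK {S : α → List ER.Con} (hS : Poly S) : UPoly (fun a => cK (S a)) :=
  UPoly.add (UPoly.add (UPoly.mul (UPoly.const 11) (UPoly.length (poly_bsys hS))) (UPoly.const 7))
    (UPoly.const 256)

theorem poly_csys {S : α → List ER.Con} (hS : Poly S) : Poly (fun a => csys (S a)) := by
  refine Poly.cons (Poly.const _) (Poly.append ?_ ?_)
  · refine Poly.map (F := fun _ j => ER.Con.mul (2 * j + 1) (2 * j + 1) (2 * j + 3))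
      (upoly_cK hS).range ?_
    have h : Poly (fun p : α × ℕ => 2 * p.2) := Poly.mul (Poly.const 2) (Poly.snd Poly.id)
    exact poly_con_mul (Poly.add h (Poly.const 1)) (Poly.add h (Poly.const 1))
      (Poly.add h (Poly.const 3))
  · exact Poly.map (F := fun _ c => ren c) (poly_bsys hS) (poly_ren (Poly.snd Poly.id))

theorem poly_slack4 {N r : α → ℕ} (hN : Poly N) (hr : Poly r) :
    Poly (fun a => slack4 (N a) (r a)) := by
  have h1 := Poly.succ hr
  have h2 : Poly (fun a => N a + 1 + r a) := Poly.add (Poly.succ hN) hr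
  exact Poly.pair (Poly.pair (Poly.const 4) (Poly.pair h1 h1))
    (Poly.pair (Poly.pair (Poly.const 4) (Poly.pair h2 h2)) (Poly.const _))

theorem poly_gsys {T : α → List ER.Con} (hT : Poly T) : Poly (fun a => gsys (T a)) := by
  have hV := poly_svars hT
  refine Poly.append ?_ ?_
  · exact Poly.map (F := fun a c => hcon (svars (T a)) c) hT
      (poly_hcon (hV.comp (Poly.fst Poly.id)) (Poly.snd Poly.id))
  · refine Poly.map (F := fun a r => slack4 (svars (T a)).length r) (UPoly.length hV).range ?_
    exact poly_slack4 ((Poly.length hV).comp (Poly.fst Poly.id)) (Poly.snd Poly.id)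

theorem poly_tau {S : α → List ER.Con} (hS : Poly S) : Poly (fun a => tau (S a)) :=
  poly_ix (poly_svars (poly_csys hS))
    (Poly.add (Poly.mul (Poly.const 2) (upoly_cK hS).toPoly) (Poly.const 1))

theorem poly_sforms {S : α → List ER.Con} (hS : Poly S) : Poly (fun a => sforms (S a)) := by
  have hT := poly_csys hS
  exact Poly.cons (Poly.cons (Poly.pair (Poly.const 1) (Poly.pair (Poly.const 0) (poly_tau hS)))
    (Poly.const [])) (poly_forms (upoly_hn hT) (poly_gsys hT))

theorem poly_sinst {S : α → List ER.Con} (hS : Poly S) : Poly (fun a => sinst (S a)) := by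
  have hT := poly_csys hS
  have hG := poly_gsys hT
  have hF := poly_sforms hS
  refine Poly.pair (poly_tenL (UPoly.add (upoly_hn hT) (UPoly.length hF)) hF) ?_
  exact poly_intToRat (Poly.natCast (Poly.mul (Poly.const 48) (Poly.length hG)))

end

/-! ### The formula -/

/-- The triple sum. -/
def tsum (d : ℕ) : Tm :=
  sumTm ((List.range d).flatMap fun i => (List.range d).flatMap fun j =>
    (List.range d).map fun k => Tm.mul (Tm.mul (Tm.mul (Tm.var (vw d i j k)) (Tm.var (4 * i)))
      (Tm.var (4 * j + 1))) (Tm.var (4 * k + 2)))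

/-- The list of the formulas. -/
def gAll (q : List (List (List ℚ)) × ℚ) : List Fm :=
  fU q.1.length 0 :: fU q.1.length 1 :: fU q.1.length 2 ::
    eqRat (Tm.var (vs q.1.length)) q.2 :: Fm.lt (Tm.var (vs q.1.length)) (tsum q.1.length) ::
    fEnt q.1

/-- The test for instances. -/
def isInstB (q : List (List (List ℚ)) × ℚ) : Bool :=
  !(decide (q.1.length = 0)) && (isCubeB q.1 && isPosB q.2)

theorem isInstB_iff (q : List (List (List ℚ)) × ℚ) : isInstB q = true ↔ IsInstance q := by
  unfold isInstB IsInstance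
  rw [Bool.and_eq_true, Bool.and_eq_true, isCubeB_iff, isPosB_iff, Bool.not_eq_true',
    decide_eq_false_iff_not, List.length_eq_zero_iff]

theorem eval_tsum (d : ℕ) (v : ℕ → ℝ) : (tsum d).eval v =
    ∑ i ∈ range d, ∑ j ∈ range d, ∑ k ∈ range d,
      v (vw d i j k) * v (4 * i) * v (4 * j + 1) * v (4 * k + 2) := by
  unfold tsum
  rw [eval_sumTm]
  have h : ∀ l : List ℕ, ((l.flatMap fun i => (List.range d).flatMap fun j =>
      (List.range d).map fun k => Tm.mul (Tm.mul (Tm.mul (Tm.var (vw d i j k)) (Tm.var (4 * i)))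
      (Tm.var (4 * j + 1))) (Tm.var (4 * k + 2))).map (Tm.eval v)).sum =
      (l.map fun i => ∑ j ∈ range d, ∑ k ∈ range d,
        v (vw d i j k) * v (4 * i) * v (4 * j + 1) * v (4 * k + 2)).sum := by
    intro l
    induction l with
    | nil => simp
    | cons a l ih =>
      rw [List.flatMap_cons, List.map_append, List.sum_append, ih, List.map_cons, List.sum_cons,
        sum_flatMap_range, sum_list_range]
      simp only [Tm.eval]
  rw [h, sum_list_range]

/-- The formula expressing that the spectral norm of a valid instance exceeds the number. -/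
theorem isEx_iff_etr (q : List (List (List ℚ)) × ℚ) :
    IsEx q.1.length (fun i j k => ((entry q.1 i j k : ℚ) : ℝ)) (q.2 : ℝ) ↔
      ETR (conj (gAll q)) := by
  unfold ETR gAll
  simp_rw [holds_conj, List.forall_mem_cons, holds_fU, holds_fEnt, holds_eqRat, Fm.Holds,
    eval_tsum]
  set d := q.1.length with hd
  constructor
  · rintro ⟨x, y, z, hx, hy, hz, g1⟩
    let v : ℕ → ℝ := fun n => if n % 4 = 0 then x (n / 4) else if n % 4 = 1 then y (n / 4) else
      if n % 4 = 2 then z (n / 4) else
      if n / 4 = d * d * d then (q.2 : ℝ) else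
        ((entry q.1 (n / 4 / d / d) (n / 4 / d % d) (n / 4 % d) : ℚ) : ℝ)
    have v0 : ∀ i, v (4 * i) = x i := by
      intro i
      simp only [v]
      rw [if_pos (by omega)]
      congr 1; omega
    have v0' : ∀ i, v (4 * i + 0) = x i := v0
    have v1 : ∀ i, v (4 * i + 1) = y i := by
      intro i
      simp only [v]
      rw [if_neg (by omega), if_pos (by omega)]
      congr 1; omega
    have v2 : ∀ i, v (4 * i + 2) = z i := by
      intro i
      simp only [v]
      rw [if_neg (by omega), if_neg (by omega), if_pos (by omega)]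
      congr 1; omega
    have v3 : v (vs d) = (q.2 : ℝ) := by
      simp only [v, vs]
      rw [if_neg (by omega), if_neg (by omega), if_neg (by omega), if_pos (by omega)]
    have v4 : ∀ i < d, ∀ j < d, ∀ k < d, v (vw d i j k) = ((entry q.1 i j k : ℚ) : ℝ) := by
      intro i hi j hj k hk
      have e0 : (4 * ((i * d + j) * d + k) + 3) / 4 = (i * d + j) * d + k := by omega
      have hd0 : 0 < d := by omega
      have e1 : ((i * d + j) * d + k) % d = k := by
        rw [Nat.mul_comm, Nat.mul_add_mod, Nat.mod_eq_of_lt hk]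
      have e2 : ((i * d + j) * d + k) / d = i * d + j := by
        rw [Nat.mul_comm, Nat.mul_add_div hd0, Nat.div_eq_of_lt hk, Nat.add_zero]
      have e3 : (i * d + j) % d = j := by
        rw [Nat.mul_comm, Nat.mul_add_mod, Nat.mod_eq_of_lt hj]
      have e4 : (i * d + j) / d = i := by
        rw [Nat.mul_comm, Nat.mul_add_div hd0, Nat.div_eq_of_lt hj, Nat.add_zero]
      have e5 : (i * d + j) * d + k ≠ d * d * d := by
        have h5 : i * d + j < d * d := by
          calc i * d + j < i * d + d := by omega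
            _ = (i + 1) * d := by ring
            _ ≤ d * d := Nat.mul_le_mul_right _ hi
        have h6 : (i * d + j) * d + k < d * d * d := by
          calc (i * d + j) * d + k < (i * d + j) * d + d := by omega
            _ = (i * d + j + 1) * d := by ring
            _ ≤ d * d * d := Nat.mul_le_mul_right _ h5
        omega
      simp only [v, vw]
      rw [if_neg (by omega), if_neg (by omega), if_neg (by omega), e0, if_neg e5, e2, e4, e1, e3]
    refine ⟨v, ?_, ?_, ?_, v3, ?_, v4⟩
    · simp_rw [v0']; exact hx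
    · simp_rw [v1]; exact hy
    · simp_rw [v2]; exact hz
    · simp only [Tm.eval]
      rw [v3]
      refine g1.trans_le (le_of_eq ?_)
      exact Finset.sum_congr rfl fun i hi => Finset.sum_congr rfl fun j hj =>
        Finset.sum_congr rfl fun k hk => by
          rw [v4 i (Finset.mem_range.1 hi) j (Finset.mem_range.1 hj) k (Finset.mem_range.1 hk),
            v0, v1, v2]
  · rintro ⟨v, hx, hy, hz, v3, g1, v4⟩
    simp only [Tm.eval] at v3 g1
    refine ⟨fun i => v (4 * i), fun i => v (4 * i + 1), fun i => v (4 * i + 2), hx, hy, hz, ?_⟩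
    rw [v3] at g1
    refine g1.trans_le (le_of_eq ?_)
    exact Finset.sum_congr rfl fun i hi => Finset.sum_congr rfl fun j hj =>
      Finset.sum_congr rfl fun k hk => by
        rw [v4 i (Finset.mem_range.1 hi) j (Finset.mem_range.1 hj) k (Finset.mem_range.1 hk)]

/-- The formula of an instance; `b` says what to do with illegal inputs. -/
def fEx (b : Bool) (q : List (List (List ℚ)) × ℚ) : Fm :=
  bif isInstB q then conj (gAll q) else bif b then conj [] else H670R2.ff

theorem exceed_iff_etr (q : List (List (List ℚ)) × ℚ) :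
    SpectralNormExceed q ↔ ETR (fEx false q) := by
  rw [exceed_iff]
  unfold fEx
  by_cases h : isInstB q = true
  · rw [h, cond_true, and_iff_right ((isInstB_iff q).1 h)]
    exact isEx_iff_etr q
  · rw [Bool.not_eq_true] at h
    rw [h, cond_false, cond_false]
    constructor
    · rintro ⟨h1, -⟩
      rw [← isInstB_iff, h] at h1
      simp at h1
    · intro h1
      exact absurd h1 H670R2.not_etr_ff

theorem not_bound_iff_etr (q : List (List (List ℚ)) × ℚ) :
    ¬ SpectralNormBound q ↔ ETR (fEx true q) := by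
  unfold fEx
  by_cases h : isInstB q = true
  · have h1 := (isInstB_iff q).1 h
    rw [h, cond_true, not_bound_iff q h1, exceed_iff, and_iff_right h1]
    exact isEx_iff_etr q
  · rw [Bool.not_eq_true] at h
    rw [h, cond_false, cond_true]
    constructor
    · intro _
      exact ⟨fun _ => 0, (holds_conj _ _).2 (by simp)⟩
    · rintro - ⟨h1, -⟩
      rw [← isInstB_iff, h] at h1
      simp at h1

theorem poly_fEx (b : Bool) : Poly (fEx b) := by
  have h1 : Poly (fun q : List (List (List ℚ)) × ℚ => q.1) := Poly.fst Poly.id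
  have h2 : Poly (fun q : List (List (List ℚ)) × ℚ => q.2) := Poly.snd Poly.id
  have hd : UPoly (fun q : List (List (List ℚ)) × ℚ => q.1.length) := UPoly.length h1
  refine Poly.cond (Poly.and (Poly.not (Poly.decide_eq hd.toPoly (Poly.const 0)))
    (Poly.and ?_ ?_)) (poly_conj ?_) (Poly.const _)
  · refine Poly.all (p := fun (q : List (List (List ℚ)) × ℚ) a =>
      decide (a.length = q.1.length) && a.all fun b => decide (b.length = q.1.length)) h1 ?_
    refine Poly.and (Poly.decide_eq (Poly.length (Poly.snd Poly.id))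
      (hd.toPoly.comp (Poly.fst Poly.id))) ?_
    refine Poly.all (p := fun (r : (List (List (List ℚ)) × ℚ) × List (List ℚ)) b =>
      decide (b.length = r.1.1.length)) (Poly.snd Poly.id) ?_
    exact Poly.decide_eq (Poly.length (Poly.snd Poly.id))
      (hd.toPoly.comp (Poly.fst (Poly.fst Poly.id)))
  · exact Poly.and (Poly.not (poly_isNeg (poly_ratNum h2)))
      (Poly.not (Poly.decide_eq (poly_natAbs (poly_ratNum h2)) (Poly.const 0)))
  · refine Poly.cons (poly_fU hd 0) (Poly.cons (poly_fU hd 1) (Poly.cons (poly_fU hd 2)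
      (Poly.cons (poly_eqRat (poly_tvar (poly_vs hd.toPoly)) h2) (Poly.cons
        (poly_lt (poly_tvar (poly_vs hd.toPoly)) ?_) (poly_fEnt h1)))))
    refine poly_sumTm (Poly.flatMap (F := fun (q : List (List (List ℚ)) × ℚ) i =>
      (List.range q.1.length).flatMap fun j => (List.range q.1.length).map fun k =>
      Tm.mul (Tm.mul (Tm.mul (Tm.var (vw q.1.length i j k)) (Tm.var (4 * i)))
      (Tm.var (4 * j + 1))) (Tm.var (4 * k + 2))) hd.range ?_)
    refine Poly.flatMap (F := fun (p : (List (List (List ℚ)) × ℚ) × ℕ) j =>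
      (List.range p.1.1.length).map fun k =>
      Tm.mul (Tm.mul (Tm.mul (Tm.var (vw p.1.1.length p.2 j k)) (Tm.var (4 * p.2)))
      (Tm.var (4 * j + 1))) (Tm.var (4 * k + 2))) (hd.range.comp (Poly.fst Poly.id)) ?_
    refine Poly.map (F := fun (p : ((List (List (List ℚ)) × ℚ) × ℕ) × ℕ) k =>
      Tm.mul (Tm.mul (Tm.mul (Tm.var (vw p.1.1.1.length p.1.2 p.2 k)) (Tm.var (4 * p.1.2)))
      (Tm.var (4 * p.2 + 1))) (Tm.var (4 * k + 2))) (hd.range.comp (Poly.fst (Poly.fst Poly.id))) ?_
    have e1 : Poly (fun p : (((List (List (List ℚ)) × ℚ) × ℕ) × ℕ) × ℕ => p.1.1.1) :=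
      Poly.fst (Poly.fst (Poly.fst Poly.id))
    have e2 : Poly (fun p : (((List (List (List ℚ)) × ℚ) × ℕ) × ℕ) × ℕ => p.1.1.2) :=
      Poly.snd (Poly.fst (Poly.fst Poly.id))
    have e3 : Poly (fun p : (((List (List (List ℚ)) × ℚ) × ℕ) × ℕ) × ℕ => p.1.2) :=
      Poly.snd (Poly.fst Poly.id)
    have e4 : Poly (fun p : (((List (List (List ℚ)) × ℚ) × ℕ) × ℕ) × ℕ => p.2) :=
      Poly.snd Poly.id
    exact poly_tmul (poly_tmul (poly_tmul (poly_tvar (poly_vw (hd.toPoly.comp e1) e2 e3 e4))
      (poly_lin0 e2)) (poly_lin e3 1)) (poly_lin e4 2)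

theorem exceed_mem : InER (lang SpectralNormExceed) :=
  ER.InER.of_poly (poly_fEx false) exceed_iff_etr

theorem bound_mem : InAR (lang SpectralNormBound) :=
  InAR.of_poly (poly_fEx true) not_bound_iff_etr

theorem exceed_hard : ERHard (lang SpectralNormExceed) :=
  ERHard.of_sys (poly_sinst Poly.id) sat_iff_exceed

theorem bound_hard : ARHard (lang SpectralNormBound) :=
  ARHard.of_sys (poly_sinst Poly.id) fun S =>
    (sat_iff_exceed S).trans (not_bound_iff _ (sinst_ok S)).symm

end Pool.Agent.NPC.V8H41SN
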